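import Pool.Agent.V11297.RootCount
import Pool.Agent.V11297.CycloLists

/-!
# The real critical point count of cyclotomic polynomials is not monotone

With `N m` the number of real roots of the derivative of the `m`-th cyclotomic polynomial,
counted with multiplicity, we have `N (177 * 5) ≥ 7` and `N (177 * 7) ≤ 5`, where
`177 = 3 * 59`.
-/

open Polynomial

namespace Pool.Agent.Results.MP_99db3a_nt.NotMonotone

open Pool.Agent.V11297.LP

/-- The number of real roots, counted with multiplicity, of the derivative of the `m`-th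
cyclotomic polynomial. -/
noncomputable def N (m : ℕ) : ℕ := Multiset.card (derivative (cyclotomic m ℝ)).roots

lemma derivative_eq {m : ℕ} {L : List ℤ} (h : ofL L = cyclotomic m ℤ) :
    derivative (cyclotomic m ℝ) = ofR (derivL L) := by
  unfold ofR
  rw [ofL_derivL, h, ← derivative_map, map_cyclotomic_int]

/-- The coefficient list of the derivative for order 1239. -/
abbrev D : List ℤ := derivL L1239

set_option maxRecDepth 100000

lemma a1 : D.getLastD 0 ≠ 0 := by decide +kernel
lemma a2 : (altL D).getLastD 0 ≠ 0 := by decide +kernel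
lemma a3 : evalL 0 D ≠ 0 := by decide +kernel
lemma a4 : evalL 1 D ≠ 0 := by decide +kernel
lemma a5 : evalL (-1) D ≠ 0 := by decide +kernel
lemma b1 : bdd (2 ^ 10) D = true := by decide +kernel
lemma b2 : bdd (2 ^ 10) D.reverse = true := by decide +kernel
lemma b3 : bdd (2 ^ 10) (altL D) = true := by decide +kernel
lemma b4 : bdd (2 ^ 10) (altL D).reverse = true := by decide +kernel
lemma c1 : 2 ^ 10 * (2 ^ D.length - 1) < 2 ^ 710 := by decide +kernel
lemma c2 : (altL D).length = D.length := by decide +kernel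
lemma t1 : (tl (2 ^ 710) D).getLastD 0 ≠ 0 := by decide +kernel
lemma t2 : (tl (2 ^ 710) D.reverse).getLastD 0 ≠ 0 := by decide +kernel
lemma t3 : (tl (2 ^ 710) (altL D)).getLastD 0 ≠ 0 := by decide +kernel
lemma t4 : (tl (2 ^ 710) (altL D).reverse).getLastD 0 ≠ 0 := by decide +kernel
lemma w1 : varL (tl (2 ^ 710) D) ≤ 0 := by decide +kernel
lemma w2 : varL (tl (2 ^ 710) D.reverse) ≤ 2 := by decide +kernel
lemma w3 : varL (tl (2 ^ 710) (altL D)) ≤ 0 := by decide +kernel
lemma w4 : varL (tl (2 ^ 710) (altL D).reverse) ≤ 3 := by decide +kernel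

lemma upper : N 1239 ≤ 5 := by
  unfold N
  rw [derivative_eq ofL_1239]
  exact card_roots_le (2 ^ 710) (2 ^ 10) 0 2 0 3 a1 a2 a3 a4 a5 (by positivity)
    b1 b2 b3 b4 c1 c2 t1 t2 t3 t4 w1 w2 w3 w4

/-- Numerators of the points used for the lower bound. -/
def num : ℕ → ℤ
  | 0 => -1
  | 1 => -99
  | 2 => -24
  | 3 => -12
  | 4 => -3
  | 5 => -1
  | 6 => 9
  | _ => 1

/-- Denominators of the points used for the lower bound. -/
def den : ℕ → ℤ
  | 0 => 1
  | 1 => 100
  | 2 => 25
  | 3 => 13
  | 4 => 4
  | 5 => 4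
  | 6 => 10
  | _ => 1

lemma lower : 7 ≤ N 885 := by
  unfold N
  rw [derivative_eq ofL_885]
  have s0 := eval_neg_of_homL (a := -1) (b := 1) (by norm_num) (l := derivL L885)
    (by decide +kernel)
  have s1 := eval_pos_of_homL (a := -99) (b := 100) (by norm_num) (l := derivL L885)
    (by decide +kernel)
  have s2 := eval_neg_of_homL (a := -24) (b := 25) (by norm_num) (l := derivL L885)
    (by decide +kernel)
  have s3 := eval_pos_of_homL (a := -12) (b := 13) (by norm_num) (l := derivL L885)
    (by decide +kernel)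
  have s4 := eval_neg_of_homL (a := -3) (b := 4) (by norm_num) (l := derivL L885)
    (by decide +kernel)
  have s5 := eval_pos_of_homL (a := -1) (b := 4) (by norm_num) (l := derivL L885)
    (by decide +kernel)
  have s6 := eval_neg_of_homL (a := 9) (b := 10) (by norm_num) (l := derivL L885)
    (by decide +kernel)
  have s7 := eval_pos_of_homL (a := 1) (b := 1) (by norm_num) (l := derivL L885)
    (by decide +kernel)
  apply card_roots_ge (ofR_ne_zero (by decide +kernel)) 7 (fun i => (num i : ℝ) / den i)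
  · intro i hi
    interval_cases i <;> simp only [num, den] <;> norm_num
  · intro i hi
    interval_cases i
    · exact mul_neg_of_neg_of_pos s0 s1
    · exact mul_neg_of_pos_of_neg s1 s2
    · exact mul_neg_of_neg_of_pos s2 s3
    · exact mul_neg_of_pos_of_neg s3 s4
    · exact mul_neg_of_neg_of_pos s4 s5
    · exact mul_neg_of_pos_of_neg s5 s6
    · exact mul_neg_of_neg_of_pos s6 s7

/-- The asserted monotonicity fails: for the odd squarefree number `n = 177 = 3 * 59` and the
primes `5 < 7`, neither dividing `n`, we have `N (n * 5) ≥ 7` and `N (n * 7) ≤ 5`. -/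
theorem result :
    ¬ (∀ n : ℕ, 1 < n → Odd n → Squarefree n → ∀ p p' : ℕ, p.Prime → p'.Prime → p < p' →
        ¬ p ∣ n → ¬ p' ∣ n → N (n * p) ≤ N (n * p')) ∧
      (177 = 3 * 59 ∧ Nat.Prime 3 ∧ Nat.Prime 59 ∧ ¬ 5 ∣ 177 ∧ ¬ 7 ∣ 177 ∧
        7 ≤ N (177 * 5) ∧ N (177 * 7) ≤ 5) := by
  have h1 : 7 ≤ N (177 * 5) := lower
  have h2 : N (177 * 7) ≤ 5 := upper
  refine ⟨fun h => ?_, by norm_num, by norm_num, by norm_num, by norm_num, by norm_num, h1, h2⟩
  have hsq : Squarefree 177 := by
    rw [show (177 : ℕ) = 3 * 59 by norm_num]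
    rw [Nat.squarefree_mul (by norm_num)]
    exact ⟨Nat.prime_three.squarefree, (show Nat.Prime 59 by norm_num).squarefree⟩
  have := h 177 (by norm_num) (by decide) hsq 5 7 (by norm_num) (by norm_num) (by norm_num)
    (by norm_num) (by norm_num)
  omega

end Pool.Agent.Results.MP_99db3a_nt.NotMonotone
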